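import Pool.Agent.Y242.Arc.Final

set_option autoImplicit false
open Complex Set Filter Metric Topology
open Pool.Agent.Y242.Arc
open Pool.Agent.Helper506.ArcPair (ParamOmittedArc)

namespace Pool.Agent.Results.MP_b8ff8c_an.ArcNearKoebe

/-- Both monotonicity properties fail at any prescribed place of the arc, arbitrarily near the Koebe
function: for all `lam > 1` and `δ > 0` there is a support point `f` of `S`, for a functional of the
coefficients `a₂, …, a₆` only, within `δ` of the Koebe function on `|z| ≤ 1 - δ`, with the following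
properties. The omitted arc has a regular analytic parametrisation `w` along which `|w|` increases;
a continuous branch `A` of `arg w` is strictly decreasing on `[0, t₁]` and strictly increasing on
`[t₁, ∞)`, where `t₁ > 0` and `| |w t₁| / |w 0| - lam | ≤ δ`; a continuous branch `B` of
`arg (w' / w)` is neither nondecreasing nor nonincreasing on the set of the `t` with
`| |w t| / |w 0| - 2 lam | ≤ δ`. -/
theorem result (lam δ : ℝ) (hlam : 1 < lam) (hδ : 0 < δ) :
    ∃ f : ℂ → ℂ, IsSupportPointSix f ∧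
      (∀ z : ℂ, ‖z‖ ≤ 1 - δ → ‖f z - z / (1 - z) ^ 2‖ ≤ δ) ∧
      ∃ w : ℝ → ℂ, ParamOmittedArc f w ∧ StrictMonoOn (fun t => ‖w t‖) (Ici 0) ∧
        (∃ A : ℝ → ℝ, ContinuousOn A (Ici 0) ∧
          (∀ t : ℝ, 0 ≤ t → w t = ‖w t‖ * Complex.exp (A t * I)) ∧
          ∃ t₁ : ℝ, 0 < t₁ ∧ |‖w t₁‖ / ‖w 0‖ - lam| ≤ δ ∧
            StrictAntiOn A (Icc 0 t₁) ∧ StrictMonoOn A (Ici t₁)) ∧
        ∃ B : ℝ → ℝ, ContinuousOn B (Ici 0) ∧
          (∀ t : ℝ, 0 ≤ t → deriv w t / w t = ‖deriv w t / w t‖ * Complex.exp (B t * I)) ∧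
          ¬ MonotoneOn B {t | 0 ≤ t ∧ |‖w t‖ / ‖w 0‖ - 2 * lam| ≤ δ} ∧
          ¬ AntitoneOn B {t | 0 ≤ t ∧ |‖w t‖ / ‖w 0‖ - 2 * lam| ≤ δ} :=
  main lam δ hlam hδ

end Pool.Agent.Results.MP_b8ff8c_an.ArcNearKoebe
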